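import Pool.Agent.H466.HN.Stm5

/-!
# Saddle points for the backward heat flow (`S_SADN`)

First the statement for a regular function in scaled variables (`sad_abs`), then the scaling.
-/

set_option autoImplicit false

namespace Pool.Agent.H585.HN

open Complex MeasureTheory Set Filter Topology Metric
open scoped ComplexConjugate NNReal

section Scaled

/-- regular scaled function -/
structure Rh (A κ η ε : ℝ) (h : ℂ → ℂ) : Prop where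
  hd : Differentiable ℂ h
  sym : ∀ ζ : ℂ, ‖h (-conj ζ)‖ = ‖h ζ‖
  ne : ∀ ζ : ℂ, 1 / 32 ≤ ζ.re → ‖ζ‖ ≤ 8 → h ζ ≠ 0
  ld : ∀ ζ : ℂ, 1 / 32 ≤ ζ.re → ‖ζ‖ ≤ 8 → ‖logDeriv h ζ - (A / 2 : ℝ)‖ ≤ κ * A
  lo : ∀ ζ : ℂ, 1 / 32 ≤ ζ.re → ‖ζ‖ ≤ 8 → Real.exp (A * (ζ.re / 2 - 1 / 4 - κ)) ≤ ‖h ζ‖
  hi : ∀ ζ : ℂ, 1 / 32 ≤ ζ.re → ‖ζ‖ ≤ 8 → ‖h ζ‖ ≤ Real.exp (A * (ζ.re / 2 - 1 / 4 + κ))
  up1 : ∀ x y : ℝ, 0 ≤ x → x ≤ 1 → |y| ≤ 60 →
    ‖h ((x : ℂ) + (y : ℂ) * I)‖ ≤ Real.exp (A * (x ^ 2 / 4 + η * (1 + x) + ε * x ^ 2))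
  up2 : ∀ x y : ℝ, 1 ≤ x → |y| ≤ 60 →
    ‖h ((x : ℂ) + (y : ℂ) * I)‖ ≤ Real.exp (A * (x / 2 - 1 / 4 + η * (1 + x) + ε * x ^ 2))

/-- the rectangle -/
def Om : Set ℂ := {z : ℂ | 1 / 16 ≤ z.re ∧ z.re ≤ 7 ∧ |z.im| ≤ 1}

lemma om_reg {z w : ℂ} (hz : z ∈ Om) (hw : ‖w - z‖ ≤ 1 / 32) : 1 / 32 ≤ w.re ∧ ‖w‖ ≤ 8 := by
  obtain ⟨h1, h2, h3⟩ := hz
  have hre : |(w - z).re| ≤ 1 / 32 := (abs_re_le_norm _).trans hw
  rw [sub_re, abs_le] at hre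
  refine ⟨by linarith [hre.1], ?_⟩
  have hzn : ‖z‖ ≤ 79 / 10 := by
    have h4 : ‖z‖ ^ 2 ≤ (79 / 10) ^ 2 := by
      rw [← normSq_eq_norm_sq, normSq_apply]
      have h5 : z.im * z.im ≤ 1 := by
        have := abs_le.1 h3
        nlinarith [this.1, this.2]
      nlinarith
    exact le_of_sq_le_sq h4 (by norm_num)
  calc ‖w‖ = ‖(w - z) + z‖ := by ring_nf
    _ ≤ ‖w - z‖ + ‖z‖ := norm_add_le _ _
    _ ≤ 8 := by linarith

lemma om_reg0 {z : ℂ} (hz : z ∈ Om) : 1 / 32 ≤ z.re ∧ ‖z‖ ≤ 8 :=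
  om_reg hz (by rw [sub_self, norm_zero]; norm_num)

lemma om_convex : Convex ℝ Om := by
  intro z hz w hw a b ha hb hab
  obtain ⟨h1, h2, h3⟩ := hz
  obtain ⟨k1, k2, k3⟩ := hw
  have hre : (a • z + b • w).re = a * z.re + b * w.re := by simp
  have him : (a • z + b • w).im = a * z.im + b * w.im := by simp
  rw [abs_le] at h3 k3
  refine ⟨?_, ?_, ?_⟩
  · rw [hre]
    have e1 := mul_le_mul_of_nonneg_left h1 ha
    have e2 := mul_le_mul_of_nonneg_left k1 hb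
    nlinarith
  · rw [hre]
    have e1 := mul_le_mul_of_nonneg_left h2 ha
    have e2 := mul_le_mul_of_nonneg_left k2 hb
    nlinarith
  · rw [him, abs_le]
    have e1 := mul_le_mul_of_nonneg_left h3.1 ha
    have e2 := mul_le_mul_of_nonneg_left k3.1 hb
    have e3 := mul_le_mul_of_nonneg_left h3.2 ha
    have e4 := mul_le_mul_of_nonneg_left k3.2 hb
    constructor
    · nlinarith
    · nlinarith

variable {A κ η ε : ℝ} {h : ℂ → ℂ}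

lemma Rh.diffp (H : Rh A κ η ε h) {z : ℂ} (h1 : 1 / 32 ≤ z.re) (h2 : ‖z‖ ≤ 8) :
    DifferentiableAt ℂ (logDeriv h) z := by
  have hd' : DifferentiableAt ℂ (deriv h) z :=
    (H.hd.differentiableOn.deriv isOpen_univ).differentiableAt (isOpen_univ.mem_nhds (mem_univ z))
  exact hd'.div H.hd.differentiableAt (H.ne z h1 h2)

lemma Rh.dp (H : Rh A κ η ε h) {z : ℂ} (hz : z ∈ Om) :
    ‖deriv (logDeriv h) z‖ ≤ 32 * κ * A := by
  have hreg : ∀ w ∈ closedBall z (1 / 32 : ℝ), 1 / 32 ≤ w.re ∧ ‖w‖ ≤ 8 := by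
    intro w hw
    exact om_reg hz (by rw [← dist_eq_norm]; exact hw)
  have hdc : DiffContOnCl ℂ (fun w => logDeriv h w - (A / 2 : ℝ)) (ball z (1 / 32)) := by
    apply DifferentiableOn.diffContOnCl
    intro w hw
    rw [closure_ball z (by norm_num : (1 / 32 : ℝ) ≠ 0)] at hw
    have := hreg w hw
    exact ((H.diffp this.1 this.2).sub_const _).differentiableWithinAt
  have hC : ∀ w ∈ sphere z (1 / 32 : ℝ), ‖logDeriv h w - (A / 2 : ℝ)‖ ≤ κ * A := by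
    intro w hw
    have := hreg w (sphere_subset_closedBall hw)
    exact H.ld w this.1 this.2
  have key := Complex.norm_deriv_le_of_forall_mem_sphere_norm_le (by norm_num) hdc hC
  rw [deriv_sub_const] at key
  calc _ ≤ κ * A / (1 / 32) := key
    _ = 32 * κ * A := by ring

lemma Rh.lip (H : Rh A κ η ε h) {z w : ℂ} (hz : z ∈ Om) (hw : w ∈ Om) :
    ‖logDeriv h w - logDeriv h z‖ ≤ 32 * κ * A * ‖w - z‖ := by
  refine om_convex.norm_image_sub_le_of_norm_deriv_le (fun x hx => ?_) (fun x hx => H.dp hx) hz hw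
  have := om_reg0 hx
  exact H.diffp this.1 this.2

/-- the saddle point -/
lemma Rh.saddle (H : Rh A κ η ε h) (hA : 0 < A) (hκ0 : 0 < κ) (hκ : κ ≤ 1 / 200) {ω : ℂ}
    (h1 : 0 ≤ ω.re) (h2 : ω.re ≤ 1 / 2) (h3 : |ω.im| ≤ 1 / 2) :
    ∃ z0 : ℂ, ‖z0 - (ω + 1)‖ ≤ 2 * κ ∧ (A / 2 : ℝ) * (z0 - ω) = logDeriv h z0 := by
  set Φ : ℂ → ℂ := fun z => ω + (2 / A : ℝ) * logDeriv h z with hΦ
  set s : Set ℂ := closedBall (ω + 1) (2 * κ) with hs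
  have hsub : s ⊆ Om := by
    intro z hz
    have hz' : ‖z - (ω + 1)‖ ≤ 2 * κ := by rw [← dist_eq_norm]; exact hz
    have e1 : |(z - (ω + 1)).re| ≤ 2 * κ := (abs_re_le_norm _).trans hz'
    have e2 : |(z - (ω + 1)).im| ≤ 2 * κ := (abs_im_le_norm _).trans hz'
    simp only [sub_re, add_re, one_re, sub_im, add_im, one_im, add_zero] at e1 e2
    rw [abs_le] at e1 e2 h3
    refine ⟨by linarith [e1.1], by linarith [e1.2], ?_⟩
    rw [abs_le]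
    constructor <;> linarith [e2.1, e2.2, h3.1, h3.2]
  have hmaps : MapsTo Φ s s := by
    intro z hz
    have hz1 := om_reg0 (hsub hz)
    have hb := H.ld z hz1.1 hz1.2
    rw [hs, mem_closedBall, dist_eq_norm, hΦ]
    have e : ω + ((2 / A : ℝ) : ℂ) * logDeriv h z - (ω + 1) =
        ((2 / A : ℝ) : ℂ) * (logDeriv h z - ((A / 2 : ℝ) : ℂ)) := by
      have hA' : (A : ℂ) ≠ 0 := by exact_mod_cast hA.ne'
      push_cast
      field_simp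
      ring
    show ‖ω + ((2 / A : ℝ) : ℂ) * logDeriv h z - (ω + 1)‖ ≤ 2 * κ
    rw [e, norm_mul, Complex.norm_real, Real.norm_eq_abs, abs_of_pos (by positivity)]
    calc 2 / A * ‖logDeriv h z - ((A / 2 : ℝ) : ℂ)‖ ≤ 2 / A * (κ * A) := by gcongr
      _ = 2 * κ := by field_simp
  have hlip : ∀ z ∈ s, ∀ w ∈ s, ‖Φ w - Φ z‖ ≤ 1 / 2 * ‖w - z‖ := by
    intro z hz w hw
    have hl := H.lip (hsub hz) (hsub hw)
    have e : Φ w - Φ z = ((2 / A : ℝ) : ℂ) * (logDeriv h w - logDeriv h z) := by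
      rw [hΦ]; ring
    rw [e, norm_mul, Complex.norm_real, Real.norm_eq_abs, abs_of_pos (by positivity)]
    calc 2 / A * ‖logDeriv h w - logDeriv h z‖ ≤ 2 / A * (32 * κ * A * ‖w - z‖) := by gcongr
      _ = 64 * κ * ‖w - z‖ := by field_simp; ring
      _ ≤ 1 / 2 * ‖w - z‖ := by
        apply mul_le_mul_of_nonneg_right _ (norm_nonneg _)
        linarith
  have hcw : ContractingWith (1 / 2 : ℝ≥0) (hmaps.restrict Φ s s) := by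
    refine ⟨by rw [← NNReal.coe_lt_coe]; norm_num, ?_⟩
    apply LipschitzWith.of_dist_le_mul
    intro x y
    have := hlip y y.2 x x.2
    rw [Subtype.dist_eq, Subtype.dist_eq, dist_eq_norm, dist_eq_norm]
    simpa using this
  have hmem : ω + 1 ∈ s := by
    rw [hs]; exact mem_closedBall_self (by positivity)
  obtain ⟨z0, hz0, hfix, -⟩ := hcw.exists_fixedPoint' (x := ω + 1)
    (isClosed_closedBall.isComplete) hmaps hmem (edist_ne_top _ _)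
  refine ⟨z0, ?_, ?_⟩
  · rw [← dist_eq_norm]; exact hz0
  · have hA' : (A : ℂ) ≠ 0 := by exact_mod_cast hA.ne'
    have e : ω + ((2 / A : ℝ) : ℂ) * logDeriv h z0 = z0 := hfix
    have e2 : z0 - ω = ((2 / A : ℝ) : ℂ) * logDeriv h z0 := by
      rw [eq_comm, ← sub_eq_zero]
      linear_combination e
    rw [e2]
    push_cast
    field_simp

/-- the integrand in scaled variables -/
noncomputable def Ev (A : ℝ) (h : ℂ → ℂ) (τ : ℝ) (ω : ℂ) (v : ℝ) : ℂ :=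
  h ((v : ℂ) + (τ : ℂ) * I) * cexp (-(A / 4 : ℝ) * ((v : ℂ) + (τ : ℂ) * I - ω) ^ 2)

lemma mem_om_of {x τ : ℝ} (h1 : 1 / 16 ≤ x) (h2 : x ≤ 7) (h3 : |τ| ≤ 1) :
    (x : ℂ) + (τ : ℂ) * I ∈ Om := by
  refine ⟨?_, ?_, ?_⟩
  · simpa using h1
  · simpa using h2
  · simpa using h3

lemma Rh.right1 (H : Rh A κ η ε h) (hA : 0 < A) (hκ0 : 0 < κ) {σ0 τ0 : ℝ} {ω : ℂ}
    (hσ1 : 1 / 16 ≤ σ0) (hσ2 : σ0 ≤ 7) (hτ : |τ0| ≤ 1)
    (hs : (A / 2 : ℝ) * ((σ0 : ℂ) + (τ0 : ℂ) * I - ω) = logDeriv h ((σ0 : ℂ) + (τ0 : ℂ) * I))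
    {v : ℝ} (hv1 : 1 / 16 ≤ v) (hv2 : v ≤ 7) :
    ∃ G : ℂ, ‖G‖ ≤ 32 * κ * (A * (v - σ0) ^ 2) ∧
      Ev A h τ0 ω v = Ev A h τ0 ω σ0 * (Real.exp (-(A * (v - σ0) ^ 2) / 4) : ℝ) * cexp G := by
  set z0 : ℂ := (σ0 : ℂ) + (τ0 : ℂ) * I with hz0
  set cl : ℝ → ℝ := fun x => max (1 / 16) (min x 7) with hcl
  have hcl1 : ∀ x, 1 / 16 ≤ cl x := fun x => le_max_left _ _
  have hcl2 : ∀ x, cl x ≤ 7 := fun x => max_le (by norm_num) (min_le_right _ _)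
  have hclc : Continuous cl := by
    exact continuous_const.max (continuous_id.min continuous_const)
  have hcle : ∀ x, 1 / 16 ≤ x → x ≤ 7 → cl x = x := by
    intro x h1 h2
    rw [hcl]
    show max (1 / 16) (min x 7) = x
    rw [min_eq_left h2, max_eq_right h1]
  set q : ℝ → ℂ := fun x => logDeriv h ((cl x : ℂ) + (τ0 : ℂ) * I) - logDeriv h z0 with hq
  have hqc : Continuous q := by
    rw [continuous_iff_continuousAt]
    intro x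
    have hreg := om_reg0 (mem_om_of (hcl1 x) (hcl2 x) hτ)
    have hc1 : ContinuousAt (logDeriv h) ((cl x : ℂ) + (τ0 : ℂ) * I) :=
      (H.diffp hreg.1 hreg.2).continuousAt
    have hc2 : ContinuousAt (fun x : ℝ => (cl x : ℂ) + (τ0 : ℂ) * I) x := by
      have : Continuous (fun x : ℝ => (cl x : ℂ) + (τ0 : ℂ) * I) := by fun_prop
      exact this.continuousAt
    have hc3 : ContinuousAt (fun x : ℝ => logDeriv h ((cl x : ℂ) + (τ0 : ℂ) * I)) x :=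
      ContinuousAt.comp (f := fun x : ℝ => (cl x : ℂ) + (τ0 : ℂ) * I) (g := logDeriv h) hc1 hc2
    exact hc3.sub continuousAt_const
  set G : ℝ → ℂ := fun x => ∫ y in σ0..x, q y with hG
  have hGd : ∀ x, HasDerivAt G (q x) x := fun x =>
    intervalIntegral.integral_hasDerivAt_right (hqc.intervalIntegrable _ _)
      (hqc.stronglyMeasurableAtFilter _ _) hqc.continuousAt
  have hqb : ∀ x, 1 / 16 ≤ x → x ≤ 7 → ‖q x‖ ≤ 32 * κ * A * |x - σ0| := by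
    intro x h1 h2
    have hl := H.lip (z := z0) (w := (x : ℂ) + (τ0 : ℂ) * I) (mem_om_of hσ1 hσ2 hτ)
      (mem_om_of h1 h2 hτ)
    have e : (x : ℂ) + (τ0 : ℂ) * I - z0 = ((x - σ0 : ℝ) : ℂ) := by
      rw [hz0]; push_cast; ring
    rw [e, Complex.norm_real, Real.norm_eq_abs] at hl
    rw [hq]
    show ‖logDeriv h ((cl x : ℂ) + (τ0 : ℂ) * I) - logDeriv h z0‖ ≤ _
    rw [hcle x h1 h2]
    exact hl
  have hGb : ‖G v‖ ≤ 32 * κ * (A * (v - σ0) ^ 2) := by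
    have h1 : ∀ x ∈ Set.uIoc σ0 v, ‖q x‖ ≤ 32 * κ * A * |v - σ0| := by
      intro x hx
      have hx' := Set.uIoc_subset_uIcc hx
      have hle : |x - σ0| ≤ |v - σ0| := Set.abs_sub_left_of_mem_uIcc hx'
      rw [Set.mem_uIcc] at hx'
      have h3 : 1 / 16 ≤ x := by rcases hx' with h | h <;> linarith [h.1, h.2]
      have h4 : x ≤ 7 := by rcases hx' with h | h <;> linarith [h.1, h.2]
      calc _ ≤ _ := hqb x h3 h4
        _ ≤ _ := by gcongr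
    have h2 := intervalIntegral.norm_integral_le_of_norm_le_const h1
    calc ‖G v‖ ≤ 32 * κ * A * |v - σ0| * |v - σ0| := h2
      _ = 32 * κ * (A * (|v - σ0| * |v - σ0|)) := by ring
      _ = 32 * κ * (A * (v - σ0) ^ 2) := by rw [abs_mul_abs_self]; ring
  set F : ℝ → ℂ := fun x => Ev A h τ0 ω x * cexp ((A / 4 : ℝ) * ((x : ℂ) - σ0) ^ 2) *
    cexp (-(G x)) with hF
  have hEd : ∀ x : ℝ, 1 / 16 ≤ x → x ≤ 7 → HasDerivAt (Ev A h τ0 ω)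
      (Ev A h τ0 ω x * (logDeriv h ((x : ℂ) + (τ0 : ℂ) * I) -
        (A / 2 : ℝ) * ((x : ℂ) + (τ0 : ℂ) * I - ω))) x := by
    intro x h1 h2
    have hreg := om_reg0 (mem_om_of h1 h2 hτ)
    have hne := H.ne _ hreg.1 hreg.2
    have hl : HasDerivAt (fun y : ℝ => (y : ℂ) + (τ0 : ℂ) * I) 1 x :=
      (Complex.ofRealCLM.hasDerivAt (x := x)).add_const _
    have hh : HasDerivAt h (deriv h ((x : ℂ) + (τ0 : ℂ) * I)) ((x : ℂ) + (τ0 : ℂ) * I) :=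
      (H.hd _).hasDerivAt
    have hh2 : HasDerivAt (fun y : ℝ => h ((y : ℂ) + (τ0 : ℂ) * I))
        (deriv h ((x : ℂ) + (τ0 : ℂ) * I) * 1) x := HasDerivAt.comp (h₂ := h) x hh hl
    have hsq : HasDerivAt (fun y : ℝ => ((y : ℂ) + (τ0 : ℂ) * I - ω) ^ 2)
        (2 * ((x : ℂ) + (τ0 : ℂ) * I - ω)) x := by
      refine ((hl.sub_const ω).fun_pow 2).congr_deriv ?_
      simp
    have hex := (hsq.const_mul (-(A / 4 : ℝ) : ℂ)).cexp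
    have := hh2.mul hex
    have hE : (fun y : ℝ => h ((y : ℂ) + (τ0 : ℂ) * I)) *
        (fun y : ℝ => cexp (-(A / 4 : ℝ) * ((y : ℂ) + (τ0 : ℂ) * I - ω) ^ 2)) = Ev A h τ0 ω := by
      funext y; rfl
    rw [← hE]
    refine this.congr_deriv ?_
    have hld : logDeriv h ((x : ℂ) + (τ0 : ℂ) * I) =
        deriv h ((x : ℂ) + (τ0 : ℂ) * I) / h ((x : ℂ) + (τ0 : ℂ) * I) := rfl
    rw [hld]
    simp only [Pi.mul_apply]
    field_simp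
    push_cast
    ring
  have hFd : ∀ x : ℝ, 1 / 16 ≤ x → x ≤ 7 → HasDerivAt F 0 x := by
    intro x h1 h2
    have hE := hEd x h1 h2
    have hl : HasDerivAt (fun y : ℝ => (y : ℂ) - (σ0 : ℂ)) 1 x :=
      (Complex.ofRealCLM.hasDerivAt (x := x)).sub_const _
    have hsq : HasDerivAt (fun y : ℝ => ((y : ℂ) - σ0) ^ 2) (2 * ((x : ℂ) - σ0)) x := by
      refine (hl.fun_pow 2).congr_deriv ?_
      simp
    have he1 := (hsq.const_mul ((A / 4 : ℝ) : ℂ)).cexp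
    have he2 := (hGd x).neg.cexp
    have := (hE.mul he1).mul he2
    refine this.congr_deriv ?_
    have hqx : q x = logDeriv h ((x : ℂ) + (τ0 : ℂ) * I) -
        (A / 2 : ℝ) * ((σ0 : ℂ) + (τ0 : ℂ) * I - ω) := by
      rw [hs, hq]
      show logDeriv h ((cl x : ℂ) + (τ0 : ℂ) * I) - logDeriv h z0 = _
      rw [hcle x h1 h2]
    rw [hqx]
    simp only [Pi.mul_apply, Pi.neg_apply]
    push_cast
    ring
  have hconst : ‖F v - F σ0‖ ≤ 0 * ‖v - σ0‖ := by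
    refine (convex_Icc (1 / 16 : ℝ) 7).norm_image_sub_le_of_norm_hasDerivWithin_le
      (f' := fun _ => 0) (fun x hx => (hFd x hx.1 hx.2).hasDerivWithinAt) (fun x _ => by simp)
      ⟨hσ1, hσ2⟩ ⟨hv1, hv2⟩
  have hFe : F v = F σ0 := by
    rw [zero_mul] at hconst
    exact sub_eq_zero.1 (norm_le_zero_iff.1 hconst)
  refine ⟨G v, hGb, ?_⟩
  have hF0 : F σ0 = Ev A h τ0 ω σ0 := by
    rw [hF]
    show Ev A h τ0 ω σ0 * cexp ((A / 4 : ℝ) * ((σ0 : ℂ) - σ0) ^ 2) * cexp (-(G σ0)) = _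
    rw [hG]
    simp
  have hFv : F v * ((Real.exp (-(A * (v - σ0) ^ 2) / 4) : ℝ) * cexp (G v)) = Ev A h τ0 ω v := by
    rw [hF]
    show Ev A h τ0 ω v * cexp ((A / 4 : ℝ) * ((v : ℂ) - σ0) ^ 2) * cexp (-(G v)) * _ = _
    rw [Complex.ofReal_exp]
    have e1 : cexp ((A / 4 : ℝ) * ((v : ℂ) - σ0) ^ 2) *
        cexp ((-(A * (v - σ0) ^ 2) / 4 : ℝ) : ℂ) = 1 := by
      rw [← Complex.exp_add, Complex.exp_eq_one_iff]
      refine ⟨0, ?_⟩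
      push_cast
      ring
    have e2 : cexp (-(G v)) * cexp (G v) = 1 := by
      rw [← Complex.exp_add, neg_add_cancel, Complex.exp_zero]
    calc _ = Ev A h τ0 ω v * (cexp ((A / 4 : ℝ) * ((v : ℂ) - σ0) ^ 2) *
        cexp ((-(A * (v - σ0) ^ 2) / 4 : ℝ) : ℂ)) * (cexp (-(G v)) * cexp (G v)) := by ring
      _ = _ := by rw [e1, e2, mul_one, mul_one]
  rw [← hFv, hFe, hF0]
  ring

lemma norm_cexp_sub_one_le (z : ℂ) : ‖cexp z - 1‖ ≤ ‖z‖ * Real.exp ‖z‖ := by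
  have := Complex.norm_exp_sub_sum_le_norm_mul_exp z 1
  simpa using this

lemma Rh.right2 (H : Rh A κ η ε h) (hA : 0 < A) (hκ0 : 0 < κ) (hκ : κ ≤ 1 / 640) {κ1 : ℝ}
    (hκ1 : 32 * κ ≤ κ1) {σ0 τ0 : ℝ} {ω : ℂ}
    (hσ1 : 1 / 16 ≤ σ0) (hσ2 : σ0 ≤ 7) (hτ : |τ0| ≤ 1)
    (hs : (A / 2 : ℝ) * ((σ0 : ℂ) + (τ0 : ℂ) * I - ω) = logDeriv h ((σ0 : ℂ) + (τ0 : ℂ) * I))
    {v : ℝ} (hv1 : 1 / 16 ≤ v) (hv2 : v ≤ 7) :
    ‖Ev A h τ0 ω v - Ev A h τ0 ω σ0 * (Real.exp (-(A * (v - σ0) ^ 2) / 4) : ℝ)‖ ≤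
      κ1 * (A * (v - σ0) ^ 2) * Real.exp (-(A * (v - σ0) ^ 2) / 5) * ‖Ev A h τ0 ω σ0‖ := by
  obtain ⟨G, hG, he⟩ := H.right1 hA hκ0 hσ1 hσ2 hτ hs hv1 hv2
  set X : ℝ := A * (v - σ0) ^ 2 with hX
  have hX0 : 0 ≤ X := by positivity
  have hGX : ‖G‖ ≤ X / 20 := by
    calc ‖G‖ ≤ 32 * κ * X := hG
      _ ≤ X / 20 := by nlinarith
  have e1 : Ev A h τ0 ω v - Ev A h τ0 ω σ0 * (Real.exp (-X / 4) : ℝ) =
      Ev A h τ0 ω σ0 * (Real.exp (-X / 4) : ℝ) * (cexp G - 1) := by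
    rw [he]; ring
  rw [e1, norm_mul, norm_mul, Complex.norm_real, Real.norm_eq_abs, abs_of_pos (Real.exp_pos _)]
  have e2 : ‖cexp G - 1‖ ≤ κ1 * X * Real.exp (X / 20) := by
    calc ‖cexp G - 1‖ ≤ ‖G‖ * Real.exp ‖G‖ := norm_cexp_sub_one_le G
      _ ≤ (32 * κ * X) * Real.exp (X / 20) := by gcongr
      _ ≤ κ1 * X * Real.exp (X / 20) := by gcongr
  calc ‖Ev A h τ0 ω σ0‖ * Real.exp (-X / 4) * ‖cexp G - 1‖
      ≤ ‖Ev A h τ0 ω σ0‖ * Real.exp (-X / 4) * (κ1 * X * Real.exp (X / 20)) := by gcongr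
    _ = κ1 * X * (Real.exp (-X / 4) * Real.exp (X / 20)) * ‖Ev A h τ0 ω σ0‖ := by ring
    _ = κ1 * X * Real.exp (-X / 5) * ‖Ev A h τ0 ω σ0‖ := by
      rw [← Real.exp_add]
      congr 3
      ring

lemma norm_Ev (τ : ℝ) (ω : ℂ) (v : ℝ) : ‖Ev A h τ ω v‖ = ‖h ((v : ℂ) + (τ : ℂ) * I)‖ *
    Real.exp (-(A / 4 * ((v - ω.re) ^ 2 - (τ - ω.im) ^ 2))) := by
  rw [Ev, norm_mul, Complex.norm_exp]
  congr 2
  have e : ((v : ℂ) + (τ : ℂ) * I - ω) ^ 2 =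
      ((((v - ω.re) ^ 2 - (τ - ω.im) ^ 2 : ℝ)) : ℂ) +
        ((2 * (v - ω.re) * (τ - ω.im) : ℝ) : ℂ) * I := by
    apply Complex.ext
    · simp [pow_two]
    · simp [pow_two]
      ring
  rw [e]
  simp only [mul_add, add_re, neg_mul, neg_re, ← ofReal_mul, ofReal_re, mul_re, I_re,
    mul_zero, ofReal_im, I_im, mul_one, sub_self]
  ring_nf

lemma Rh.evlow (H : Rh A κ η ε h) {σ0 τ0 : ℝ} {ω : ℂ}
    (hσ1 : 1 / 16 ≤ σ0) (hσ2 : σ0 ≤ 7) (hτ : |τ0| ≤ 1) :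
    Real.exp (A * (σ0 / 2 - 1 / 4 - κ) - A / 4 * ((σ0 - ω.re) ^ 2 - (τ0 - ω.im) ^ 2)) ≤
      ‖Ev A h τ0 ω σ0‖ := by
  have hreg := om_reg0 (mem_om_of hσ1 hσ2 hτ)
  have hlo := H.lo _ hreg.1 hreg.2
  have hre : ((σ0 : ℂ) + (τ0 : ℂ) * I).re = σ0 := by simp
  rw [hre] at hlo
  rw [norm_Ev, sub_eq_add_neg, Real.exp_add]
  gcongr

lemma Rh.right3 (H : Rh A κ η ε h) (hA : 0 < A) (hκ0 : 0 < κ) (hκ : κ ≤ 1 / 1000)
    (hη : η ≤ 1 / 1000) (hη0 : 0 ≤ η) (hε : ε ≤ 1 / 1000) (hε0 : 0 ≤ ε)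
    {σ0 τ0 : ℝ} {ω : ℂ}
    (hω0 : 0 ≤ ω.re) (hω1 : ω.re ≤ 1 / 2) (hσ : |σ0 - (ω.re + 1)| ≤ 2 * κ) (hτ : |τ0| ≤ 1)
    {v : ℝ} (hv : 7 ≤ v) :
    ‖Ev A h τ0 ω v‖ ≤ Real.exp (-(24 / 100 * (A * (v - σ0) ^ 2))) * ‖Ev A h τ0 ω σ0‖ := by
  rw [abs_le] at hσ
  have hσ1 : 1 / 16 ≤ σ0 := by linarith [hσ.1]
  have hσ2 : σ0 ≤ 7 := by linarith [hσ.2]
  have hlow := H.evlow (ω := ω) hσ1 hσ2 hτ
  have hup := H.up2 v τ0 (by linarith) (hτ.trans (by norm_num))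
  rw [norm_Ev]
  set u : ℝ := v - σ0 with hu
  set δ : ℝ := σ0 - (ω.re + 1) with hδ
  have hu5 : 5 ≤ u := by rw [hu]; linarith [hσ.2]
  calc ‖h ((v : ℂ) + (τ0 : ℂ) * I)‖ * Real.exp (-(A / 4 * ((v - ω.re) ^ 2 - (τ0 - ω.im) ^ 2)))
      ≤ Real.exp (A * (v / 2 - 1 / 4 + η * (1 + v) + ε * v ^ 2)) *
        Real.exp (-(A / 4 * ((v - ω.re) ^ 2 - (τ0 - ω.im) ^ 2))) := by gcongr
    _ = Real.exp (A * (v / 2 - 1 / 4 + η * (1 + v) + ε * v ^ 2) -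
        (A / 4 * ((v - ω.re) ^ 2 - (τ0 - ω.im) ^ 2))) := by
      rw [← Real.exp_add, ← sub_eq_add_neg]
    _ ≤ Real.exp (-(24 / 100 * (A * u ^ 2)) + (A * (σ0 / 2 - 1 / 4 - κ) -
        A / 4 * ((σ0 - ω.re) ^ 2 - (τ0 - ω.im) ^ 2))) := by
      apply Real.exp_le_exp.2
      have key : v / 2 - 1 / 4 + η * (1 + v) + ε * v ^ 2 - 1 / 4 * (v - ω.re) ^ 2 ≤
          -(24 / 100 * u ^ 2) + (σ0 / 2 - 1 / 4 - κ) - 1 / 4 * (σ0 - ω.re) ^ 2 := by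
        have e1 : v = u + σ0 := by rw [hu]; ring
        have e2 : σ0 = δ + ω.re + 1 := by rw [hδ]; ring
        have hv2 : v ≤ 3 / 2 * u := by linarith [hσ.2]
        have f1 : η * (1 + v) ≤ 1 / 1000 * (2 * u) := by
          apply mul_le_mul hη (by linarith) (by linarith) (by norm_num)
        have f2 : ε * v ^ 2 ≤ 1 / 1000 * (9 / 4 * u ^ 2) := by
          apply mul_le_mul hε _ (by positivity) (by norm_num)
          nlinarith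
        have f3 : 1 / 4 * (v - ω.re) ^ 2 = 1 / 4 * u ^ 2 + 1 / 2 * u * (1 + δ) +
            1 / 4 * (σ0 - ω.re) ^ 2 := by
          rw [e1, e2]; ring
        have f4 : -(1 / 2 * u * δ) ≤ κ * u := by nlinarith [hσ.1]
        have f5 : κ * u ≤ 1 / 1000 * u := by nlinarith
        rw [f3]
        nlinarith
      calc A * (v / 2 - 1 / 4 + η * (1 + v) + ε * v ^ 2) -
            (A / 4 * ((v - ω.re) ^ 2 - (τ0 - ω.im) ^ 2))
          = A * (v / 2 - 1 / 4 + η * (1 + v) + ε * v ^ 2 - 1 / 4 * (v - ω.re) ^ 2) +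
            A / 4 * (τ0 - ω.im) ^ 2 := by ring
        _ ≤ A * (-(24 / 100 * u ^ 2) + (σ0 / 2 - 1 / 4 - κ) - 1 / 4 * (σ0 - ω.re) ^ 2) +
            A / 4 * (τ0 - ω.im) ^ 2 := by gcongr
        _ = _ := by ring
    _ = Real.exp (-(24 / 100 * (A * u ^ 2))) * Real.exp (A * (σ0 / 2 - 1 / 4 - κ) -
        A / 4 * ((σ0 - ω.re) ^ 2 - (τ0 - ω.im) ^ 2)) := by rw [← Real.exp_add]
    _ ≤ _ := by gcongr

lemma Rh.right4 (H : Rh A κ η ε h) (hA : 0 < A) (hκ0 : 0 < κ) (hκ : κ ≤ 1 / 1000)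
    (hη : η ≤ 1 / 1000) (hη0 : 0 ≤ η) (hε : ε ≤ 1 / 1000) (hε0 : 0 ≤ ε)
    {κ1 : ℝ} (hA1 : 1 ≤ A * κ1) (hκ1 : 0 < κ1)
    {σ0 τ0 : ℝ} {ω : ℂ}
    (hω0 : 0 ≤ ω.re) (hω1 : ω.re ≤ 1 / 2) (hσ : |σ0 - (ω.re + 1)| ≤ 2 * κ) (hτ : |τ0| ≤ 1)
    {v : ℝ} (hv : 7 ≤ v) :
    ‖Ev A h τ0 ω v - Ev A h τ0 ω σ0 * (Real.exp (-(A * (v - σ0) ^ 2) / 4) : ℝ)‖ ≤
      κ1 * (A * (v - σ0) ^ 2) * Real.exp (-(A * (v - σ0) ^ 2) / 5) * ‖Ev A h τ0 ω σ0‖ := by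
  have h3 := H.right3 hA hκ0 hκ hη hη0 hε hε0 hω0 hω1 hσ hτ hv
  rw [abs_le] at hσ
  set X : ℝ := A * (v - σ0) ^ 2 with hX
  have hu5 : 5 ≤ v - σ0 := by linarith [hσ.2]
  have hX0 : 0 ≤ X := by positivity
  have hX2 : 2 ≤ κ1 * X := by
    have h25 : 25 ≤ (v - σ0) ^ 2 := by nlinarith
    calc (2 : ℝ) ≤ 1 * 25 := by norm_num
      _ ≤ (A * κ1) * (v - σ0) ^ 2 := by gcongr
      _ = κ1 * X := by rw [hX]; ring
  calc ‖Ev A h τ0 ω v - Ev A h τ0 ω σ0 * (Real.exp (-X / 4) : ℝ)‖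
      ≤ ‖Ev A h τ0 ω v‖ + ‖Ev A h τ0 ω σ0 * (Real.exp (-X / 4) : ℝ)‖ := norm_sub_le _ _
    _ = ‖Ev A h τ0 ω v‖ + ‖Ev A h τ0 ω σ0‖ * Real.exp (-X / 4) := by
      rw [norm_mul, Complex.norm_real, Real.norm_eq_abs, abs_of_pos (Real.exp_pos _)]
    _ ≤ Real.exp (-X / 5) * ‖Ev A h τ0 ω σ0‖ + ‖Ev A h τ0 ω σ0‖ * Real.exp (-X / 5) := by
      apply add_le_add
      · refine h3.trans ?_
        apply mul_le_mul_of_nonneg_right _ (norm_nonneg _)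
        apply Real.exp_le_exp.2
        linarith
      · apply mul_le_mul_of_nonneg_left _ (norm_nonneg _)
        apply Real.exp_le_exp.2
        linarith
    _ = 2 * Real.exp (-X / 5) * ‖Ev A h τ0 ω σ0‖ := by ring
    _ ≤ κ1 * X * Real.exp (-X / 5) * ‖Ev A h τ0 ω σ0‖ := by gcongr

/-- bound near the line by the maximum principle -/
lemma Rh.inner (H : Rh A κ η ε h) (hA : 0 < A) (hκ0 : 0 < κ)
    (hη : η ≤ 1 / 1000) (hη0 : 0 ≤ η) (hε : ε ≤ 1 / 1000) (hε0 : 0 ≤ ε)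
    {σ : ℝ} (hσ1 : 1 ≤ σ) (hσ2 : σ ≤ 3 / 2) {v τ : ℝ} (hv0 : 0 ≤ v) (hv1 : v ≤ σ / 16)
    (hτ : |τ| ≤ 51 / 100) :
    ‖h ((v : ℂ) + (τ : ℂ) * I)‖ ≤ Real.exp (A * (σ / 32 - 1 / 4 + κ + 28 / 10000)) := by
  have hsq : ∀ z : ℂ, ‖cexp ((A / 100 : ℝ) * z ^ 2)‖ =
      Real.exp (A / 100 * (z.re ^ 2 - z.im ^ 2)) := by
    intro z
    rw [Complex.norm_exp, re_ofReal_mul]
    congr 2
    simp [pow_two]
  have hsymm : ∀ z : ℂ, ∃ z' : ℂ, z'.re = |z.re| ∧ z'.im = z.im ∧ ‖h z‖ = ‖h z'‖ := by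
    intro z
    rcases le_total 0 z.re with h0 | h0
    · exact ⟨z, (abs_of_nonneg h0).symm, rfl, rfl⟩
    · refine ⟨-conj z, ?_, ?_, (H.sym z).symm⟩
      · rw [abs_of_nonpos h0]; simp
      · simp
  set f : ℂ → ℂ := fun z => h z * cexp ((A / 100 : ℝ) * z ^ 2) with hf
  have hfn : ∀ z, ‖f z‖ = ‖h z‖ * Real.exp (A / 100 * (z.re ^ 2 - z.im ^ 2)) := by
    intro z
    rw [← hsq z, ← norm_mul]
  have hfd : Differentiable ℂ f := by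
    apply H.hd.mul
    exact ((differentiable_id.pow 2).const_mul _).cexp
  set U : Set ℂ := Ioo (-(σ / 16)) (σ / 16) ×ℂ Ioo (-6) 6 with hU
  set C : ℝ := Real.exp (A * (σ / 32 - 1 / 4 + κ + 1 / 10000)) with hC
  have hne1 : -(σ / 16) ≠ σ / 16 := by
    intro h; linarith
  have hlt1 : -(σ / 16) < σ / 16 := by linarith
  have hUb : Bornology.IsBounded U := by
    exact (Metric.isBounded_Ioo _ _).reProdIm (Metric.isBounded_Ioo _ _)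
  have hclU : closure U = Icc (-(σ / 16)) (σ / 16) ×ℂ Icc (-6) 6 := by
    rw [hU, closure_reProdIm, closure_Ioo hne1, closure_Ioo (by norm_num)]
  have hsd : (σ / 16) ^ 2 ≤ 1 / 100 := by nlinarith
  have hfr : ∀ z ∈ frontier U, ‖f z‖ ≤ C := by
    intro z hz
    rw [hU, frontier_reProdIm, closure_Ioo hne1, closure_Ioo (by norm_num), frontier_Ioo hlt1,
      frontier_Ioo (by norm_num)] at hz
    obtain ⟨z', hz1, hz2, hz3⟩ := hsymm z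
    rw [hfn, hz3]
    rcases hz with hz | hz
    · have hr : z.re ∈ Icc (-(σ / 16)) (σ / 16) := hz.1
      have him : z.im ∈ ({-6, 6} : Set ℝ) := hz.2
      have hr' : |z.re| ≤ σ / 16 := abs_le.2 hr
      have hi2 : z.im ^ 2 = 36 := by
        rcases him with h | h
        · rw [h]; norm_num
        · rw [mem_singleton_iff] at h
          rw [h]; norm_num
      have hz' : z' = ((|z.re| : ℝ) : ℂ) + ((z.im : ℝ) : ℂ) * I := by
        apply Complex.ext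
        · simp [hz1]
        · simp [hz2]
      have hab : |z.im| ≤ 60 := by
        apply abs_le_of_sq_le_sq _ (by norm_num)
        rw [hi2]; norm_num
      have hup := H.up1 |z.re| z.im (abs_nonneg _) (by linarith) hab
      rw [hz', hi2]
      have hq : z.re ^ 2 = |z.re| ^ 2 := (sq_abs _).symm
      rw [hq]
      set x := |z.re| with hx
      have hx0 : 0 ≤ x := abs_nonneg _
      have hx2 : x ^ 2 ≤ 1 / 100 := by nlinarith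
      calc _ ≤ Real.exp (A * (x ^ 2 / 4 + η * (1 + x) + ε * x ^ 2)) *
            Real.exp (A / 100 * (x ^ 2 - 36)) := by gcongr
        _ = Real.exp (A * (x ^ 2 / 4 + η * (1 + x) + ε * x ^ 2 + (x ^ 2 - 36) / 100)) := by
          rw [← Real.exp_add]; congr 1; ring
        _ ≤ C := by
          apply Real.exp_le_exp.2
          apply mul_le_mul_of_nonneg_left _ hA.le
          have g1 : η * (1 + x) ≤ 1 / 1000 * 2 :=
            mul_le_mul hη (by linarith) (by linarith) (by norm_num)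
          have g2 : ε * x ^ 2 ≤ 1 / 1000 * 1 :=
            mul_le_mul hε (by linarith) (by positivity) (by norm_num)
          linarith
    · have hr : z.re ∈ ({-(σ / 16), σ / 16} : Set ℝ) := hz.1
      have him : z.im ∈ Icc (-6 : ℝ) 6 := hz.2
      have hr' : |z.re| = σ / 16 := by
        rcases hr with h | h
        · rw [h, abs_neg, abs_of_pos (by linarith)]
        · rw [mem_singleton_iff] at h
          rw [h, abs_of_pos (by linarith)]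
      have hzr : z'.re = σ / 16 := hz1.trans hr'
      have hn : ‖z'‖ ≤ 8 := by
        have h4 : ‖z'‖ ^ 2 ≤ 8 ^ 2 := by
          rw [← normSq_eq_norm_sq, normSq_apply, hzr, hz2]
          have h5 : z.im * z.im ≤ 36 := by nlinarith [him.1, him.2]
          nlinarith
        exact le_of_sq_le_sq h4 (by norm_num)
      have hhi := H.hi z' (by rw [hzr]; linarith) hn
      rw [hzr] at hhi
      have hq : z.re ^ 2 = (σ / 16) ^ 2 := by rw [← sq_abs, hr']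
      rw [hq]
      calc _ ≤ Real.exp (A * (σ / 16 / 2 - 1 / 4 + κ)) *
            Real.exp (A / 100 * ((σ / 16) ^ 2 - z.im ^ 2)) := by gcongr
        _ = Real.exp (A * (σ / 16 / 2 - 1 / 4 + κ + ((σ / 16) ^ 2 - z.im ^ 2) / 100)) := by
          rw [← Real.exp_add]; congr 1; ring
        _ ≤ C := by
          apply Real.exp_le_exp.2
          apply mul_le_mul_of_nonneg_left _ hA.le
          have : 0 ≤ z.im ^ 2 := sq_nonneg _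
          linarith
  have hmem : (v : ℂ) + (τ : ℂ) * I ∈ closure U := by
    rw [hclU, mem_reProdIm]
    rw [abs_le] at hτ
    constructor
    · simp only [add_re, ofReal_re, mul_re, I_re, mul_zero, ofReal_im, I_im, mul_one, sub_self,
        add_zero]
      exact ⟨by linarith, hv1⟩
    · simp only [add_im, ofReal_im, mul_im, ofReal_re, I_im, mul_one, I_re, mul_zero, add_zero,
        zero_add]
      exact ⟨by linarith [hτ.1], by linarith [hτ.2]⟩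
  have key := Complex.norm_le_of_forall_mem_frontier_norm_le hUb hfd.diffContOnCl hfr hmem
  rw [hfn] at key
  have hre : ((v : ℂ) + (τ : ℂ) * I).re = v := by simp
  have him : ((v : ℂ) + (τ : ℂ) * I).im = τ := by simp
  rw [hre, him] at key
  have hτ2 : τ ^ 2 ≤ 27 / 100 := by
    rw [abs_le] at hτ
    nlinarith [hτ.1, hτ.2]
  calc ‖h ((v : ℂ) + (τ : ℂ) * I)‖
      = ‖h ((v : ℂ) + (τ : ℂ) * I)‖ * Real.exp (A / 100 * (v ^ 2 - τ ^ 2)) *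
        Real.exp (-(A / 100 * (v ^ 2 - τ ^ 2))) := by
          rw [mul_assoc, ← Real.exp_add, add_neg_cancel, Real.exp_zero, mul_one]
    _ ≤ C * Real.exp (-(A / 100 * (v ^ 2 - τ ^ 2))) := by gcongr
    _ = Real.exp (A * (σ / 32 - 1 / 4 + κ + 1 / 10000 - (v ^ 2 - τ ^ 2) / 100)) := by
      rw [hC, ← Real.exp_add]; congr 1; ring
    _ ≤ _ := by
      apply Real.exp_le_exp.2
      apply mul_le_mul_of_nonneg_left _ hA.le
      have : 0 ≤ v ^ 2 := sq_nonneg _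
      linarith

lemma Rh.left1 (H : Rh A κ η ε h) (hA : 0 < A) (hκ0 : 0 < κ) (hκ : κ ≤ 1 / 1000)
    (hη : η ≤ 1 / 1000) (hη0 : 0 ≤ η) (hε : ε ≤ 1 / 1000) (hε0 : 0 ≤ ε)
    {σ0 τ0 : ℝ} {ω : ℂ}
    (hω0 : 0 ≤ ω.re) (hω1 : ω.re ≤ 1 / 2) (hσ : |σ0 - (ω.re + 1)| ≤ 2 * κ)
    (hτ : |τ0| ≤ 51 / 100)
    {v : ℝ} (hv0 : 0 ≤ v) (hv1 : v ≤ (ω.re + 1) / 16) :
    ‖Ev A h τ0 ω v‖ ≤ Real.exp (-(19 / 100 * (A * (ω.re + 1) ^ 2))) * ‖Ev A h τ0 ω σ0‖ := by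
  have hin := H.inner hA hκ0 hη hη0 hε hε0 (σ := ω.re + 1) (by linarith) (by linarith) hv0 hv1 hτ
  rw [abs_le] at hσ
  have hσ1 : 1 / 16 ≤ σ0 := by linarith [hσ.1]
  have hσ2 : σ0 ≤ 7 := by linarith [hσ.2]
  have hlow := H.evlow (ω := ω) hσ1 hσ2 (hτ.trans (by norm_num))
  rw [norm_Ev]
  set r : ℝ := ω.re with hr
  set δ : ℝ := σ0 - (r + 1) with hδ
  calc ‖h ((v : ℂ) + (τ0 : ℂ) * I)‖ * Real.exp (-(A / 4 * ((v - r) ^ 2 - (τ0 - ω.im) ^ 2)))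
      ≤ Real.exp (A * ((r + 1) / 32 - 1 / 4 + κ + 28 / 10000)) *
        Real.exp (-(A / 4 * ((v - r) ^ 2 - (τ0 - ω.im) ^ 2))) := by gcongr
    _ = Real.exp (A * ((r + 1) / 32 - 1 / 4 + κ + 28 / 10000) -
        (A / 4 * ((v - r) ^ 2 - (τ0 - ω.im) ^ 2))) := by
      rw [← Real.exp_add, ← sub_eq_add_neg]
    _ ≤ Real.exp (-(19 / 100 * (A * (r + 1) ^ 2)) + (A * (σ0 / 2 - 1 / 4 - κ) -
        A / 4 * ((σ0 - r) ^ 2 - (τ0 - ω.im) ^ 2))) := by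
      apply Real.exp_le_exp.2
      have key : (r + 1) / 32 - 1 / 4 + κ + 28 / 10000 ≤
          -(19 / 100 * (r + 1) ^ 2) + (σ0 / 2 - 1 / 4 - κ) - 1 / 4 * (σ0 - r) ^ 2 := by
        have e2 : σ0 = δ + r + 1 := by rw [hδ]; ring
        have hd2 : δ ^ 2 ≤ 1 / 10000 := by nlinarith [hσ.1, hσ.2]
        rw [e2]
        have e3 : (δ + r + 1 - r) = 1 + δ := by ring
        rw [e3]
        nlinarith
      have hvr : 0 ≤ A / 4 * (v - r) ^ 2 := by positivity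
      calc A * ((r + 1) / 32 - 1 / 4 + κ + 28 / 10000) -
            (A / 4 * ((v - r) ^ 2 - (τ0 - ω.im) ^ 2))
          ≤ A * ((r + 1) / 32 - 1 / 4 + κ + 28 / 10000) + A / 4 * (τ0 - ω.im) ^ 2 := by linarith
        _ ≤ A * (-(19 / 100 * (r + 1) ^ 2) + (σ0 / 2 - 1 / 4 - κ) - 1 / 4 * (σ0 - r) ^ 2) +
            A / 4 * (τ0 - ω.im) ^ 2 := by gcongr
        _ = _ := by ring
    _ = Real.exp (-(19 / 100 * (A * (r + 1) ^ 2))) * Real.exp (A * (σ0 / 2 - 1 / 4 - κ) -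
        A / 4 * ((σ0 - r) ^ 2 - (τ0 - ω.im) ^ 2)) := by rw [← Real.exp_add]
    _ ≤ _ := by gcongr

theorem sad_abs {κ1 : ℝ} (hκ1 : 0 < κ1) {A κ η ε : ℝ} {h : ℂ → ℂ} (H : Rh A κ η ε h)
    (hκ0 : 0 < κ) (hκ : κ ≤ 1 / 1000) (hκκ : 32 * κ ≤ κ1) (hA : 1 ≤ A) (hA1 : 1 ≤ A * κ1)
    (hη : η ≤ 1 / 1000) (hη0 : 0 ≤ η) (hε : ε ≤ 1 / 1000) (hε0 : 0 ≤ ε) {ω : ℂ}
    (hω0 : 0 ≤ ω.re) (hω1 : ω.re ≤ 1 / 2) (hω2 : |ω.im| ≤ 1 / 2) :
    ∃ σ0 τ0 : ℝ, |σ0 - (ω.re + 1)| ≤ 2 * κ ∧ Ev A h τ0 ω σ0 ≠ 0 ∧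
      ‖(σ0 : ℂ) + (τ0 : ℂ) * I - (ω + 1)‖ ≤ 2 * κ ∧
      (∀ v : ℝ, (ω.re + 1) / 16 ≤ v →
        ‖Ev A h τ0 ω v - Ev A h τ0 ω σ0 * (Real.exp (-(A * (v - σ0) ^ 2) / 4) : ℝ)‖ ≤
          κ1 * (A * (v - σ0) ^ 2) * Real.exp (-(A * (v - σ0) ^ 2) / 5) * ‖Ev A h τ0 ω σ0‖) ∧
      (∀ v : ℝ, 0 ≤ v → v ≤ (ω.re + 1) / 16 →
        ‖Ev A h τ0 ω v‖ ≤
          Real.exp (-(19 / 100 * (A * (ω.re + 1) ^ 2))) * ‖Ev A h τ0 ω σ0‖) := by
  have hA0 : 0 < A := by linarith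
  obtain ⟨z0, hz0, hs⟩ := H.saddle hA0 hκ0 (by linarith) hω0 hω1 hω2
  have hz0e : ((z0.re : ℝ) : ℂ) + ((z0.im : ℝ) : ℂ) * I = z0 := re_add_im z0
  have e1 : |(z0 - (ω + 1)).re| ≤ 2 * κ := (abs_re_le_norm _).trans hz0
  have e2 : |(z0 - (ω + 1)).im| ≤ 2 * κ := (abs_im_le_norm _).trans hz0
  simp only [sub_re, add_re, one_re, sub_im, add_im, one_im, add_zero] at e1 e2
  have e1' := abs_le.1 e1
  have e2' := abs_le.1 e2
  have hω2' := abs_le.1 hω2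
  have hτ : |z0.im| ≤ 51 / 100 := by
    rw [abs_le]
    constructor <;> linarith [e2'.1, e2'.2, hω2'.1, hω2'.2]
  have hσ1 : 1 / 16 ≤ z0.re := by linarith [e1'.1]
  have hσ2 : z0.re ≤ 7 := by linarith [e1'.2]
  have hτ1 : |z0.im| ≤ 1 := hτ.trans (by norm_num)
  rw [← hz0e] at hs
  refine ⟨z0.re, z0.im, e1, ?_, ?_, ?_, ?_⟩
  · have hlow := H.evlow (ω := ω) hσ1 hσ2 hτ1
    have hpos := lt_of_lt_of_le (Real.exp_pos _) hlow
    exact norm_pos_iff.1 hpos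
  · rw [hz0e]; exact hz0
  · intro v hv
    rcases le_total v 7 with h7 | h7
    · exact H.right2 hA0 hκ0 (by linarith) hκκ hσ1 hσ2 hτ1 hs (by linarith) h7
    · exact H.right4 hA0 hκ0 hκ hη hη0 hε hε0 hA1 hκ1 hω0 hω1 e1 hτ1 h7
  · intro v hv0 hv1
    exact H.left1 hA0 hκ0 hκ hη hη0 hε hε0 hω0 hω1 e1 hτ hv0 hv1

end Scaled

open Pool.Agent.H466.HF Pool.Agent.H466.LD Pool.Agent.H466.HP Pool.Agent.H466.HN

/-- the scaled function -/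
noncomputable def hs (F : ℂ → ℂ) (t Δ Γ : ℝ) (ζ : ℂ) : ℂ :=
  F ((t : ℂ) * I + (Δ : ℂ) * ζ) / (Γ : ℂ)

lemma hs_norm (F : ℂ → ℂ) (t Δ : ℝ) {Γ : ℝ} (hΓ : 0 < Γ) (ζ : ℂ) :
    ‖hs F t Δ Γ ζ‖ = ‖F ((t : ℂ) * I + (Δ : ℂ) * ζ)‖ / Γ := by
  rw [hs, norm_div, Complex.norm_real, Real.norm_eq_abs, abs_of_pos hΓ]

lemma hs_logDeriv {F : ℂ → ℂ} (hF : Differentiable ℂ F) (t Δ : ℝ) {Γ : ℝ} (hΓ : 0 < Γ) (ζ : ℂ) :
    logDeriv (hs F t Δ Γ) ζ = (Δ : ℂ) * logDeriv F ((t : ℂ) * I + (Δ : ℂ) * ζ) := by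
  have hΓ' : (Γ : ℂ) ≠ 0 := by exact_mod_cast hΓ.ne'
  have h1 : HasDerivAt (fun ζ : ℂ => (t : ℂ) * I + (Δ : ℂ) * ζ) (Δ : ℂ) ζ := by
    have := ((hasDerivAt_id ζ).const_mul (Δ : ℂ)).const_add ((t : ℂ) * I)
    simpa using this
  have h2 : HasDerivAt (fun ζ : ℂ => F ((t : ℂ) * I + (Δ : ℂ) * ζ))
      (deriv F ((t : ℂ) * I + (Δ : ℂ) * ζ) * (Δ : ℂ)) ζ :=
    HasDerivAt.comp (h₂ := F) ζ (hF _).hasDerivAt h1
  have h3 : HasDerivAt (hs F t Δ Γ)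
      (deriv F ((t : ℂ) * I + (Δ : ℂ) * ζ) * (Δ : ℂ) / (Γ : ℂ)) ζ := h2.div_const _
  have e1 : logDeriv (hs F t Δ Γ) ζ = deriv (hs F t Δ Γ) ζ / hs F t Δ Γ ζ := rfl
  have e2 : logDeriv F ((t : ℂ) * I + (Δ : ℂ) * ζ) =
    deriv F ((t : ℂ) * I + (Δ : ℂ) * ζ) / F ((t : ℂ) * I + (Δ : ℂ) * ζ) := rfl
  rw [e1, e2, h3.deriv, hs]
  rw [div_div_div_cancel_right₀ hΓ']
  ring

lemma hs_diff {F : ℂ → ℂ} (hF : Differentiable ℂ F) (t Δ Γ : ℝ) :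
    Differentiable ℂ (hs F t Δ Γ) := by
  have h1 : Differentiable ℂ (fun ζ : ℂ => (t : ℂ) * I + (Δ : ℂ) * ζ) := by fun_prop
  exact (hF.comp h1).div_const _

/-- from `Hr` to the scaled structure -/
lemma rh_of_hr {T t μ κ Γ η Kc : ℝ} (hμ : 0 < μ) (hL : 0 < Real.log T)
    (hd : Differentiable ℂ (LL gk (-μ))) (H : Hr T t μ κ Γ η Kc) :
    Rh (μ * Real.log T ^ 2) κ η (Kc * μ) (hs (LL gk (-μ)) t (μ * Real.log T) Γ) := by
  set L := Real.log T with hLdef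
  set Δ := μ * L with hΔ
  have hΔ0 : 0 < Δ := by positivity
  have hΓ := H.Γp
  have hre : ∀ ζ : ℂ, ((t : ℂ) * I + (Δ : ℂ) * ζ).re = Δ * ζ.re := by
    intro ζ
    simp
  have hn : ∀ ζ : ℂ, ‖(t : ℂ) * I + (Δ : ℂ) * ζ - (t : ℂ) * I‖ = Δ * ‖ζ‖ := by
    intro ζ
    rw [add_sub_cancel_left, norm_mul, Complex.norm_real, Real.norm_eq_abs, abs_of_pos hΔ0]
  have hA : L * Δ = μ * L ^ 2 := by rw [hΔ]; ring
  have r1 : ∀ ζ : ℂ, 1 / 32 ≤ ζ.re → Δ / 32 ≤ ((t : ℂ) * I + (Δ : ℂ) * ζ).re := by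
    intro ζ h
    rw [hre]
    nlinarith
  have r2 : ∀ ζ : ℂ, ‖ζ‖ ≤ 8 → ‖(t : ℂ) * I + (Δ : ℂ) * ζ - (t : ℂ) * I‖ ≤ 8 * Δ := by
    intro ζ h
    rw [hn]
    nlinarith
  have hup : ∀ x y : ℝ, 0 ≤ x → |y| ≤ 60 → ‖hs (LL gk (-μ)) t Δ Γ ((x : ℂ) + (y : ℂ) * I)‖ ≤
      Real.exp (μ * L ^ 2 * (pf x + η * (1 + x) + Kc * μ * x ^ 2)) := by
    intro x y hx hy
    have h1 := H.up (Δ * x) (t + Δ * y) (by positivity) (by
      rw [add_sub_cancel_left, abs_mul, abs_of_pos hΔ0]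
      nlinarith)
    rw [hs_norm _ _ _ hΓ, div_le_iff₀ hΓ, mul_comm _ Γ]
    have e1 : (t : ℂ) * I + (Δ : ℂ) * ((x : ℂ) + (y : ℂ) * I) =
        ((Δ * x : ℝ) : ℂ) + ((t + Δ * y : ℝ) : ℂ) * I := by
      push_cast; ring
    rw [e1]
    refine h1.trans (le_of_eq ?_)
    congr 2
    rw [show Δ * x / Δ = x by field_simp]
    rw [show L * (Δ * x) = μ * L ^ 2 * x by rw [hΔ]; ring]
    rw [show Kc * (Δ * x) ^ 2 = μ * L ^ 2 * (Kc * μ * x ^ 2) by rw [hΔ]; ring]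
    ring
  refine ⟨hs_diff hd _ _ _, ?_, ?_, ?_, ?_, ?_, ?_, ?_⟩
  · intro ζ
    rw [hs_norm _ _ _ hΓ, hs_norm _ _ _ hΓ]
    have e : (t : ℂ) * I + (Δ : ℂ) * (-conj ζ) = -conj ((t : ℂ) * I + (Δ : ℂ) * ζ) := by
      rw [map_add, map_mul, map_mul, conj_ofReal, conj_ofReal, conj_I]
      ring
    rw [e, Flam_fe, RCLike.norm_conj]
  · intro ζ h1 h2
    have h3 := H.ne _ (r1 ζ h1) (r2 ζ h2)
    rw [hs]
    have hΓ' : (Γ : ℂ) ≠ 0 := by exact_mod_cast hΓ.ne'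
    exact div_ne_zero h3 hΓ'
  · intro ζ h1 h2
    have h3 := H.ld _ (r1 ζ h1) (r2 ζ h2)
    rw [hs_logDeriv hd _ _ hΓ]
    have e : (Δ : ℂ) * logDeriv (LL gk (-μ)) ((t : ℂ) * I + (Δ : ℂ) * ζ) -
        ((μ * L ^ 2 / 2 : ℝ) : ℂ) = (Δ : ℂ) *
        (logDeriv (LL gk (-μ)) ((t : ℂ) * I + (Δ : ℂ) * ζ) - ((L / 2 : ℝ) : ℂ)) := by
      rw [hΔ]
      push_cast
      ring
    rw [e, norm_mul, Complex.norm_real, Real.norm_eq_abs, abs_of_pos hΔ0]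
    calc Δ * _ ≤ Δ * (κ * L) := by gcongr
      _ = κ * (μ * L ^ 2) := by rw [← hA]; ring
  · intro ζ h1 h2
    have h3 := H.lo _ (r1 ζ h1) (r2 ζ h2)
    rw [hs_norm _ _ _ hΓ, le_div_iff₀ hΓ, mul_comm _ Γ]
    refine (le_of_eq ?_).trans h3
    rw [hre]
    congr 2
    rw [← hA]
    ring
  · intro ζ h1 h2
    have h3 := H.hi _ (r1 ζ h1) (r2 ζ h2)
    rw [hs_norm _ _ _ hΓ, div_le_iff₀ hΓ, mul_comm _ Γ]
    refine h3.trans (le_of_eq ?_)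
    rw [hre]
    congr 2
    rw [← hA]
    ring
  · intro x y hx0 hx1 hy
    have := hup x y hx0 hy
    rwa [pf, if_pos hx1] at this
  · intro x y hx1 hy
    have := hup x y (by linarith) hy
    have e : pf x = x / 2 - 1 / 4 := by
      rw [pf]
      split_ifs with h
      · have : x = 1 := le_antisymm h hx1
        rw [this]; norm_num
      · rfl
    rwa [e] at this

lemma evg_eq (F : ℂ → ℂ) (t : ℝ) {Δ Γ μ L : ℝ} (hμ : 0 < μ) (hΓ : 0 < Γ) (hΔ : Δ = μ * L)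
    (ω : ℂ) (τ v : ℝ) :
    EvG F (t + Δ * τ) μ ((t : ℂ) * I + (Δ : ℂ) * ω - ((t + Δ * τ : ℝ) : ℂ) * I) (Δ * v) =
      (Γ : ℂ) * Ev (μ * L ^ 2) (hs F t Δ Γ) τ ω v := by
  have hΓ' : (Γ : ℂ) ≠ 0 := by exact_mod_cast hΓ.ne'
  have hμ' : (μ : ℂ) ≠ 0 := by exact_mod_cast hμ.ne'
  rw [EvG, Ev, hs]
  have e1 : ((Δ * v : ℝ) : ℂ) + ((t + Δ * τ : ℝ) : ℂ) * I =
      (t : ℂ) * I + (Δ : ℂ) * ((v : ℂ) + (τ : ℂ) * I) := by
    push_cast; ring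
  have e2 : -(((Δ * v : ℝ) : ℂ) - ((t : ℂ) * I + (Δ : ℂ) * ω - ((t + Δ * τ : ℝ) : ℂ) * I)) ^ 2 /
      (4 * (μ : ℂ)) = -((μ * L ^ 2 / 4 : ℝ) : ℂ) * ((v : ℂ) + (τ : ℂ) * I - ω) ^ 2 := by
    rw [hΔ]
    push_cast
    field_simp
    ring
  rw [e1, e2]
  field_simp

/-- saddle points for the backward heat flow -/
theorem sadn : S_SADN := by
  intro κ1 hκ1
  set κ : ℝ := min (1 / 1000) (κ1 / 32) with hκ
  have hκ0 : 0 < κ := lt_min (by norm_num) (by positivity)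
  have hκa : κ ≤ 1 / 1000 := min_le_left _ _
  have hκb : 32 * κ ≤ κ1 := by
    have : κ ≤ κ1 / 32 := min_le_right _ _
    linarith
  refine ⟨κ, 1 / 1000, hκ0, by norm_num, ?_⟩
  intro Kc δ2 hKc hδ2
  obtain ⟨Ak, -, -, -, -, -, -, -, k, -⟩ := far_data
  refine ⟨max 1000 (1 / κ1), max 10 (Real.exp (1000 * (Kc * δ2))),
    (by norm_num : (1 : ℝ) ≤ 1000).trans (le_max_left _ _), le_max_left _ _, ?_⟩
  intro T t μ Γ hT ht1 ht2 hμ hA hδ H w hw0 hw1 hw2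
  have hT10 : 10 ≤ T := (le_max_left _ _).trans hT
  have hTe : Real.exp (1000 * (Kc * δ2)) ≤ T := (le_max_right _ _).trans hT
  have hLe : 1000 * (Kc * δ2) ≤ Real.log T := by
    rw [Real.le_log_iff_exp_le (by linarith)]
    exact hTe
  have hL0 : 0 < Real.log T := Real.log_pos (by linarith)
  have hA1 : 1000 ≤ μ * Real.log T ^ 2 := (le_max_left _ _).trans hA
  have hA2 : 1 / κ1 ≤ μ * Real.log T ^ 2 := (le_max_right _ _).trans hA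
  have hd : Differentiable ℂ (LL gk (-μ)) := k.differentiable (-μ)
  have R := rh_of_hr hμ hL0 hd H
  have hΓ := H.Γp
  set L := Real.log T with hLdef
  set Δ := μ * L with hΔ
  set A := μ * L ^ 2 with hAdef
  have hΔ0 : 0 < Δ := by positivity
  have hA0 : 0 < A := by positivity
  have hA3 : 1 ≤ A * κ1 := by
    rw [div_le_iff₀ hκ1] at hA2
    exact hA2
  have hε : Kc * μ ≤ 1 / 1000 := by
    have h1 : Kc * μ * L ≤ Kc * δ2 := by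
      calc Kc * μ * L = Kc * (μ * L) := by ring
        _ ≤ Kc * δ2 := by gcongr
    have h2 : Kc * μ * L ≤ 1 / 1000 * L := by linarith
    exact le_of_mul_le_mul_right h2 hL0
  set ω : ℂ := (w - (t : ℂ) * I) / (Δ : ℂ) with hω
  have hΔ' : (Δ : ℂ) ≠ 0 := by exact_mod_cast hΔ0.ne'
  have hwe : w = (t : ℂ) * I + (Δ : ℂ) * ω := by
    rw [hω]; field_simp; ring
  have hwre : w.re = Δ * ω.re := by
    have := congrArg Complex.re hwe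
    simpa using this
  have hwim : w.im = t + Δ * ω.im := by
    have := congrArg Complex.im hwe
    simpa using this
  have hω0 : 0 ≤ ω.re := by
    rw [hwre] at hw0
    exact nonneg_of_mul_nonneg_right hw0 hΔ0
  have hω1 : ω.re ≤ 1 / 2 := by
    rw [hwre] at hw1
    have : Δ * ω.re ≤ Δ * (1 / 2) := by linarith
    exact le_of_mul_le_mul_left this hΔ0
  have hω2 : |ω.im| ≤ 1 / 2 := by
    rw [hwim, add_sub_cancel_left, abs_mul, abs_of_pos hΔ0] at hw2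
    have : Δ * |ω.im| ≤ Δ * (1 / 2) := by linarith
    exact le_of_mul_le_mul_left this hΔ0
  obtain ⟨σ0, τ0, hσ, hne, hz, hright, hleft⟩ := sad_abs hκ1 R hκ0 hκa hκb
    (by linarith) hA3 (by norm_num) (by norm_num) hε (by positivity) hω0 hω1 hω2
  have hEv : ∀ v : ℝ, EvG (LL gk (-μ)) (t + Δ * τ0) μ (w - ((t + Δ * τ0 : ℝ) : ℂ) * I) (Δ * v) =
      (Γ : ℂ) * Ev A (hs (LL gk (-μ)) t Δ Γ) τ0 ω v := by
    intro v
    have h1 := evg_eq (LL gk (-μ)) t hμ hΓ hΔ ω τ0 v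
    rw [← hwe] at h1
    exact h1
  have hEvn : ∀ v : ℝ,
      ‖EvG (LL gk (-μ)) (t + Δ * τ0) μ (w - ((t + Δ * τ0 : ℝ) : ℂ) * I) (Δ * v)‖ =
      Γ * ‖Ev A (hs (LL gk (-μ)) t Δ Γ) τ0 ω v‖ := by
    intro v
    rw [hEv, norm_mul, Complex.norm_real, Real.norm_eq_abs, abs_of_pos hΓ]
  have hs' : w.re + Δ = Δ * (ω.re + 1) := by rw [hwre]; ring
  have hq : ∀ v c : ℝ, 0 < c → (Δ * v - Δ * σ0) ^ 2 / (c * μ) = A * (v - σ0) ^ 2 / c := by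
    intro v c hc
    rw [hΔ, hAdef]
    field_simp
  have hq1 : ∀ v : ℝ, (Δ * v - Δ * σ0) ^ 2 / μ = A * (v - σ0) ^ 2 := by
    intro v
    have := hq v 1 one_pos
    rwa [one_mul, div_one] at this
  refine ⟨Δ * σ0, t + Δ * τ0, ⟨hμ, by positivity, ?_, ?_, ?_, ?_, ?_⟩, ?_⟩
  · calc 1000 * μ ≤ A * μ := by gcongr
      _ = Δ ^ 2 := by rw [hΔ, hAdef]; ring
      _ ≤ (w.re + Δ) ^ 2 := by gcongr; linarith
  · rw [hs', ← mul_sub, abs_mul, abs_of_pos hΔ0, mul_div_assoc]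
    apply mul_le_mul_of_nonneg_left _ hΔ0.le
    linarith
  · rw [hEv]
    have hΓ' : (Γ : ℂ) ≠ 0 := by exact_mod_cast hΓ.ne'
    exact mul_ne_zero hΓ' hne
  · intro v hv
    obtain ⟨v', rfl⟩ : ∃ v' : ℝ, v = Δ * v' := ⟨v / Δ, by field_simp⟩
    have hv' : (ω.re + 1) / 16 ≤ v' := by
      rw [hs', mul_div_assoc] at hv
      exact le_of_mul_le_mul_left hv hΔ0
    have h1 := hright v' hv'
    rw [hEvn σ0, hEv v', hEv σ0, hq1, neg_div, neg_div, hq v' 4 (by norm_num),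
      hq v' 5 (by norm_num)]
    rw [neg_div, neg_div] at h1
    rw [mul_assoc, ← mul_sub, norm_mul, Complex.norm_real, Real.norm_eq_abs, abs_of_pos hΓ]
    calc Γ * _ ≤ Γ * _ := mul_le_mul_of_nonneg_left h1 hΓ.le
      _ = _ := by ring
  · intro v hv0 hv1
    obtain ⟨v', rfl⟩ : ∃ v' : ℝ, v = Δ * v' := ⟨v / Δ, by field_simp⟩
    have hv' : v' ≤ (ω.re + 1) / 16 := by
      rw [hs', mul_div_assoc] at hv1
      exact le_of_mul_le_mul_left hv1 hΔ0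
    have hv0' : 0 ≤ v' := nonneg_of_mul_nonneg_right hv0 hΔ0
    have h1 := hleft v' hv0' hv'
    rw [hEvn, hEvn]
    have e : (w.re + Δ) ^ 2 / μ = A * (ω.re + 1) ^ 2 := by
      rw [hs', hΔ, hAdef]; field_simp
    rw [e]
    calc Γ * _ ≤ Γ * _ := mul_le_mul_of_nonneg_left h1 hΓ.le
      _ = _ := by ring
  · have hμ' : (μ : ℂ) ≠ 0 := by exact_mod_cast hμ.ne'
    have e : (((Δ * σ0 : ℝ) : ℂ) - (w - ((t + Δ * τ0 : ℝ) : ℂ) * I)) / (2 * (μ : ℂ)) -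
        ((L / 2 : ℝ) : ℂ) = ((L / 2 : ℝ) : ℂ) * ((σ0 : ℂ) + (τ0 : ℂ) * I - (ω + 1)) := by
      rw [hwe, hΔ]
      push_cast
      field_simp
      ring
    rw [e, norm_mul, Complex.norm_real, Real.norm_eq_abs, abs_of_pos (by positivity)]
    calc L / 2 * _ ≤ L / 2 * (2 * κ) := by gcongr
      _ = κ * L := by ring
      _ ≤ κ1 * L := by
        apply mul_le_mul_of_nonneg_right _ hL0.le
        linarith

end Pool.Agent.H585.HN
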